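import Pool.Agent.H95.BD.MPL

/-!
# Module MMI of block F (MP_c9fc14_co): mirror image of `MPL`
-/

set_option autoImplicit false

namespace Pool.BD

open Relation

theorem mmi (h1 : IITStmt) (h2 : STA) : MMI := by
  classical
  obtain ⟨K, φ, hK⟩ := MPL.core h1 h2
  refine ⟨K, fun b => decide (φ (fun j => b j = true)), fun i => ?_⟩
  have := i.fin
  obtain ⟨α, β, hab⟩ := hK i.V i.G i.rk i.H i.q i.Q i.R.mir i.nh.ok.isR.mir i.nh.up i.nh.ok.parR
  refine ⟨α, β, fun a b hd => ?_⟩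
  have h3 := hab a b hd.1
  have h4 : (∃ w x, Rg i.G i.rk i.H i.q a w x ∧ i.R.lo w ≤ i.R.lo b ∧ i.R.lo b ≤ i.R.pos w x) ↔
      (∃ w x, Rg i.G i.rk i.H i.q a w x ∧ i.R.mir.pos w x ≤ i.R.mir.hi b ∧
        i.R.mir.hi b ≤ i.R.mir.hi w) := by
    simp only [Ct.mir]
    constructor
    · rintro ⟨w, x, hg, h5, h6⟩
      exact ⟨w, x, hg, by omega, by omega⟩
    · rintro ⟨w, x, hg, h5, h6⟩
      exact ⟨w, x, hg, by omega, by omega⟩
  refine h4.trans (h3.trans ?_)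
  beta_reduce
  simp

end Pool.BD
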