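import Pool.Agent.H56.BD.StmtsT

/-!
# Module MPL of block F (MP_c9fc14_co): the relation that some rung of `a` lies on the tree path to `b`
is uniformly decided by boundedly many comparisons (application of `IITStmt` to the rungs)
-/

set_option autoImplicit false

namespace Pool.BD

open Relation

namespace MPL

/-- the sources -/
def Src {V : Type} (G : SimpleGraph V) (rk : V → ℕ) (H : Set V) (q : V) (a : V) : Prop :=
  a ∉ H ∧ ¬ Re G rk a q ∧ ∃ v ∈ H, v ≠ q ∧ Re G rk a v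

section one

variable {V : Type} {G : SimpleGraph V} {rk : V → ℕ} {H : Set V} {q : V} {Q : Set V} {c : Ct V}

/-- a source has a rung -/
theorem exists_rung {a : V} (ha : a ∉ H) (haq : ¬ Re G rk a q) {v : V} (h : Re G rk a v) :
    v ∈ H → ∃ w x, Rg G rk H q a w x := by
  induction h with
  | refl => exact fun h => absurd h ha
  | @tail b d h1 h2 ih =>
    intro hd
    by_cases hb : b ∈ H
    · exact ih hb
    · refine ⟨d, b, hd, ?_, hb, h1, h2⟩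
      intro he
      exact haq (he ▸ (ReflTransGen.tail h1 h2))

/-- a rung is a dart of the contour -/
theorem rung_dn (hc : IsCt G H q Q c) {a w x : V} (h : Rg G rk H q a w x) :
    Dn G H q Q c w x ∧ ¬ Ch H q c w x := by
  obtain ⟨hw, hwq, hx, _, har⟩ := h
  refine ⟨⟨hw, har.1.symm, fun he => absurd he hwq, fun _ he => ?_⟩, fun hch => hx hch.1⟩
  exact hx (he ▸ (hc.par w hw hwq).1)

/-- there is a bound for all the positions -/
theorem exists_bd [Finite V] (c : Ct V) :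
    ∃ M : ℤ, (∀ u w, -M ≤ c.pos u w) ∧ (∀ v, -M ≤ c.hi v) ∧ (∀ v, c.hi v < M) := by
  have h1 : (Set.range (fun p : V × V => c.pos p.1 p.2)).Finite := Set.finite_range _
  have h2 : (Set.range c.hi).Finite := Set.finite_range _
  obtain ⟨a1, h3⟩ := h1.bddBelow
  obtain ⟨a2, h4⟩ := h2.bddBelow
  obtain ⟨a3, h5⟩ := h2.bddAbove
  refine ⟨|a1| + |a2| + |a3| + 1, fun u w => ?_, fun v => ?_, fun v => ?_⟩
  · have := h3 ⟨(u, w), rfl⟩
    simp only at this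
    have e1 := neg_abs_le a1
    have e2 := abs_nonneg a2
    have e3 := abs_nonneg a3
    linarith
  · have := h4 ⟨v, rfl⟩
    have e1 := neg_abs_le a2
    have e2 := abs_nonneg a1
    have e3 := abs_nonneg a3
    linarith
  · have := h5 ⟨v, rfl⟩
    have e1 := le_abs_self a3
    have e2 := abs_nonneg a1
    have e3 := abs_nonneg a2
    linarith

end one

/-- the conclusion for one contour -/
def Core : Prop :=
  ∃ (K : ℕ) (φ : (Fin K → Prop) → Prop), ∀ (V : Type) [Finite V] (G : SimpleGraph V) (rk : V → ℕ)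
    (H : Set V) (q : V) (Q : Set V) (c : Ct V),
    IsCt G H q Q c → Up G rk H q → (∀ v ∈ H, v ≠ q → rk (c.par v) < rk v) →
    ∃ (α : Fin K → V → ℕ) (β : Fin K → V → ℕ), ∀ a b, Src G rk H q a →
      ((∃ w x, Rg G rk H q a w x ∧ c.pos w x ≤ c.hi b ∧ c.hi b ≤ c.hi w) ↔
        φ (fun j => α j a < β j b))

theorem core (h1 : IITStmt) (h2 : STA) : Core := by
  classical
  obtain ⟨K, φ, hK⟩ := h1
  refine ⟨K, φ, ?_⟩
  intro V hfin G rk H q Q c hc hup hr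
  have := Fintype.ofFinite V
  obtain ⟨M, hM1, hM2, hM3⟩ := exists_bd c
  -- codes
  let cd : ℤ → ℕ := fun x => (x + M).toNat
  have cdlt : ∀ x y : ℤ, -M ≤ x → -M ≤ y → (cd x < cd y ↔ x < y) := by
    intro x y hx hy
    simp only [cd]
    omega
  have cdle : ∀ x y : ℤ, -M ≤ x → -M ≤ y → (cd x ≤ cd y ↔ x ≤ y) := by
    intro x y hx hy
    simp only [cd]
    omega
  have cdinj : ∀ x y : ℤ, -M ≤ x → -M ≤ y → cd x = cd y → x = y := by
    intro x y hx hy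
    simp only [cd]
    omega
  let C : {a : V // Src G rk H q a} → Finset ℕ := fun a =>
    ((Finset.univ : Finset (V × V)).filter (fun p => Rg G rk H q a.1 p.1 p.2)).image
      (fun p => cd (c.pos p.1 p.2))
  have memC : ∀ a n, n ∈ C a ↔ ∃ w x, Rg G rk H q a.1 w x ∧ cd (c.pos w x) = n := by
    intro a n
    simp only [C, Finset.mem_image, Finset.mem_filter, Finset.mem_univ, true_and]
    constructor
    · rintro ⟨⟨w, x⟩, h1, h2⟩
      exact ⟨w, x, h1, h2⟩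
    · rintro ⟨w, x, h1, h2⟩
      exact ⟨⟨w, x⟩, h1, h2⟩
  let r : ℕ → ℕ := fun n =>
    if h : ∃ a w x, Rg G rk H q a w x ∧ cd (c.pos w x) = n then cd (c.hi h.choose_spec.choose) else n
  have hrr : ∀ a w x, Rg G rk H q a w x → r (cd (c.pos w x)) = cd (c.hi w) := by
    intro a w x hg
    have hex : ∃ a w' x', Rg G rk H q a w' x' ∧ cd (c.pos w' x') = cd (c.pos w x) :=
      ⟨a, w, x, hg, rfl⟩
    have e1 : r (cd (c.pos w x)) = cd (c.hi hex.choose_spec.choose) := dif_pos hex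
    obtain ⟨x', h3, h4⟩ := hex.choose_spec.choose_spec
    have h5 := rung_dn hc h3
    have h6 := rung_dn hc hg
    have h7 := cdinj _ _ (hM1 _ _) (hM1 _ _) h4
    have h8 := hc.pos_inj hr h5.1 h5.2 h6.1 h6.2 h7
    rw [e1, h8.1]
  have hK' := hK {a : V // Src G rk H q a} C r (cd M) ?_ ?_ ?_ ?_
  · obtain ⟨α, β, hab⟩ := hK'
    refine ⟨fun j a => if h : Src G rk H q a then α j ⟨a, h⟩ else 0,
      fun j b => β j (cd (c.hi b)), ?_⟩
    intro a b ha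
    have hlt : cd (c.hi b) < cd M := by
      have := hM3 b
      have := hM2 b
      simp only [cd]
      omega
    have h3 := hab ⟨a, ha⟩ (cd (c.hi b)) hlt
    simp only [dif_pos ha]
    rw [← h3]
    constructor
    · rintro ⟨w, x, hg, h4, h5⟩
      refine ⟨cd (c.pos w x), (memC _ _).2 ⟨w, x, hg, rfl⟩, ?_, ?_⟩
      · exact (cdle _ _ (hM1 _ _) (hM2 _)).2 h4
      · rw [hrr a w x hg]
        exact (cdle _ _ (hM2 _) (hM2 _)).2 h5
    · rintro ⟨n, hn, h4, h5⟩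
      obtain ⟨w, x, hg, rfl⟩ := (memC _ _).1 hn
      rw [hrr a w x hg] at h5
      exact ⟨w, x, hg, (cdle _ _ (hM1 _ _) (hM2 _)).1 h4, (cdle _ _ (hM2 _) (hM2 _)).1 h5⟩
  · rintro ⟨a, ha⟩
    obtain ⟨h3, h4, v, hv, hvq, h5⟩ := ha
    obtain ⟨w, x, h6⟩ := exists_rung h3 h4 h5 hv
    exact ⟨_, (memC _ _).2 ⟨w, x, h6, rfl⟩⟩
  · rintro ⟨a, ha⟩ ⟨h, hh⟩ m hm hm' n hn hn' hlt
    obtain ⟨w1, x1, hg1, rfl⟩ := (memC _ _).1 hm
    obtain ⟨w2, x2, hg2, rfl⟩ := (memC _ _).1 hn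
    have k1 : ¬ Re G rk h x1 := fun hre => hm' ((memC _ _).2
      ⟨w1, x1, ⟨hg1.1, hg1.2.1, hg1.2.2.1, hre, hg1.2.2.2.2⟩, rfl⟩)
    have k2 : ¬ Re G rk h x2 := fun hre => hn' ((memC _ _).2
      ⟨w2, x2, ⟨hg2.1, hg2.2.1, hg2.2.2.1, hre, hg2.2.2.2.2⟩, rfl⟩)
    by_contra hcon
    push Not at hcon
    obtain ⟨⟨u, hu, hu1, hu2⟩, ⟨v, hv, hv1⟩⟩ := hcon
    obtain ⟨w3, x3, hg3, rfl⟩ := (memC _ _).1 hu
    obtain ⟨w4, x4, hg4, rfl⟩ := (memC _ _).1 hv
    rw [cdlt _ _ (hM1 _ _) (hM1 _ _)] at hu1 hu2 hlt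
    rw [cdlt _ _ (hM1 _ _) (hM1 _ _), cdlt _ _ (hM1 _ _) (hM1 _ _)] at hv1
    rcases hv1 with hv1 | hv1
    · exact (h2 V G rk H q Q c hc hup hr a h ha.1 hh.1 ha.2.1 hh.2.1 w1 x1 w2 x2 w4 x4 w3 x3
        hg1 k1 hg2 k2 hg4 hg3).2 ⟨hv1, hu1, hu2⟩
    · exact (h2 V G rk H q Q c hc hup hr a h ha.1 hh.1 ha.2.1 hh.2.1 w1 x1 w2 x2 w3 x3 w4 x4
        hg1 k1 hg2 k2 hg3 hg4).1 ⟨hu1, hu2, hv1⟩
  · rintro ⟨a, ha⟩ m hm
    obtain ⟨w, x, hg, rfl⟩ := (memC _ _).1 hm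
    rw [hrr a w x hg]
    have := (hc.dn w x (rung_dn hc hg).1).2
    exact (cdle _ _ (hM1 _ _) (hM2 _)).2 this.le
  · rintro ⟨a, ha⟩ ⟨h, hh⟩ m hm n hn hlt hle
    obtain ⟨w, x, hg, rfl⟩ := (memC _ _).1 hm
    obtain ⟨w', x', hg', rfl⟩ := (memC _ _).1 hn
    rw [hrr a w x hg] at hle ⊢
    rw [hrr h w' x' hg']
    rw [cdlt _ _ (hM1 _ _) (hM1 _ _)] at hlt
    rw [cdle _ _ (hM1 _ _) (hM2 _)] at hle
    rw [cdle _ _ (hM2 _) (hM2 _)]
    have h3 := rung_dn hc hg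
    have h4 := rung_dn hc hg'
    have h5 := hc.dn w x h3.1
    have h6 := hc.dart_block hr h4.1 h4.2 hg.1 (by omega) hle
    exact (hc.anc_le h6).2

end MPL

theorem mpl (h1 : IITStmt) (h2 : STA) : MPL := by
  classical
  obtain ⟨K, φ, hK⟩ := MPL.core h1 h2
  refine ⟨K, fun b => decide (φ (fun j => b j = true)), fun i => ?_⟩
  have := i.fin
  obtain ⟨α, β, hab⟩ := hK i.V i.G i.rk i.H i.q i.Q i.L i.nh.ok.isL i.nh.up i.nh.ok.parL
  refine ⟨α, β, fun a b hd => ?_⟩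
  refine (hab a b hd.1).trans ?_
  beta_reduce
  simp

end Pool.BD
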